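import Pool.Agent.TH212.CuspVar

/-!
The Poisson algebra `O = ℂ + (x, y) ^ 2` has one-dimensional zeroth Poisson homology, the second
algebraic de Rham cohomology of the plane is zero, and every deformation quantization `A` of
`ℂ[x, y]` has `HH_0(A[ħ⁻¹]) = 0`.
-/

set_option autoImplicit false

open scoped TensorProduct

namespace Pool.Agent.U758.NN

open Pool.Agent.TH212

/-- The exact algebraic `2`-forms on the plane: `h dx ∧ dy` with `h = ∂_x g - ∂_y f`. -/
noncomputable def exact : Submodule ℂ R where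
  carrier := {h | ∃ f g : R, h = MvPolynomial.pderiv 0 g - MvPolynomial.pderiv 1 f}
  add_mem' := by
    rintro a b ⟨f, g, rfl⟩ ⟨f', g', rfl⟩
    exact ⟨f + f', g + g', by simp only [map_add]; ring⟩
  zero_mem' := ⟨0, 0, by simp⟩
  smul_mem' := by
    rintro c a ⟨f, g, rfl⟩
    exact ⟨c • f, c • g, by rw [Derivation.map_smul, Derivation.map_smul, smul_sub]⟩

theorem mem_exact {h : R} :
    h ∈ exact ↔ ∃ f g : R, h = MvPolynomial.pderiv 0 g - MvPolynomial.pderiv 1 f := Iff.rfl

/-- Every polynomial is an `x`-derivative. -/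
theorem exists_pderiv (h : R) : ∃ g : R, MvPolynomial.pderiv 0 g = h := by
  induction h using MvPolynomial.induction_on' with
  | monomial s c =>
    refine ⟨mo (s 0 + 1) (s 1) (c / (s 0 + 1)), ?_⟩
    rw [pd0]
    have h1 : (c / ((s 0 : ℂ) + 1)) * ((s 0 + 1 : ℕ) : ℂ) = c := by
      have : ((s 0 : ℂ) + 1) ≠ 0 := by exact_mod_cast Nat.succ_ne_zero (s 0)
      push_cast
      field_simp
    rw [h1, Nat.add_sub_cancel]
    unfold mo
    rw [ex_eta]
  | add p q hp hq =>
    obtain ⟨g, rfl⟩ := hp
    obtain ⟨g', rfl⟩ := hq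
    exact ⟨g + g', by rw [map_add]⟩

theorem exact_eq_top : exact = ⊤ := by
  rw [eq_top_iff]
  intro h _
  obtain ⟨g, hg⟩ := exists_pderiv h
  exact ⟨0, g, by rw [map_zero, sub_zero, hg]⟩

/-- The monomial `c x ^ a y ^ b` of degree at least `2`, as an element of `O`. -/
theorem mo_mem {a b : ℕ} (h : 2 ≤ a + b) (c : ℂ) : mo a b c ∈ OX := by
  intro i
  fin_cases i
  · change MvPolynomial.constantCoeff (MvPolynomial.pderiv 0 (mo a b c)) = 0
    rw [pd0, MvPolynomial.constantCoeff_eq]
    unfold mo
    rw [MvPolynomial.coeff_monomial]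
    split_ifs with h1
    · have h2 := DFunLike.congr_fun h1 0
      have h3 := DFunLike.congr_fun h1 1
      rw [ex_zero] at h2
      rw [ex_one] at h3
      simp only [Finsupp.coe_zero, Pi.zero_apply] at h2 h3
      have : a = 0 ∨ a = 1 := by omega
      omega
    · rfl
  · change MvPolynomial.constantCoeff (MvPolynomial.pderiv 1 (mo a b c)) = 0
    rw [pd1, MvPolynomial.constantCoeff_eq]
    unfold mo
    rw [MvPolynomial.coeff_monomial]
    split_ifs with h1
    · have h2 := DFunLike.congr_fun h1 0
      have h3 := DFunLike.congr_fun h1 1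
      rw [ex_zero] at h2
      rw [ex_one] at h3
      simp only [Finsupp.coe_zero, Pi.zero_apply] at h2 h3
      omega
    · rfl

/-- The monomials of degree at least `2` are brackets of elements of `O`. -/
theorem mo_brackets {a b : ℕ} (h : 2 ≤ a + b) (c : ℂ) :
    (⟨mo a b c, mo_mem h c⟩ : OX) ∈ PO.brackets := by
  apply Submodule.subset_span
  by_cases hab : a = b
  · subst hab
    have ha : 1 ≤ a := by omega
    -- `{x^2, x^(a-1) y^(a+1)} = - 2 (a+1) x^a y^a`
    refine ⟨⟨mo 2 0 1, mo_mem (by norm_num) 1⟩,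
      ⟨mo (a - 1) (a + 1) (-c / (2 * (a + 1))), mo_mem (by omega) _⟩, ?_⟩
    apply Subtype.ext
    rw [PO_val]
    change mo a a c = pb (mo 2 0 1) (mo (a - 1) (a + 1) (-c / (2 * (a + 1))))
    rw [pb_mo]
    have e1 : 2 + (a - 1) - 1 = a := by omega
    have e2 : 0 + (a + 1) - 1 = a := by omega
    rw [e1, e2]
    congr 1
    have : ((a : ℂ) + 1) ≠ 0 := by exact_mod_cast Nat.succ_ne_zero a
    push_cast
    field_simp
    ring
  · -- `{x y, x^a y^b} = (a - b) x^a y^b`
    refine ⟨⟨mo 1 1 1, mo_mem (by norm_num) 1⟩,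
      ⟨mo a b (c / ((a : ℂ) - b)), mo_mem h _⟩, ?_⟩
    apply Subtype.ext
    rw [PO_val]
    change mo a b c = pb (mo 1 1 1) (mo a b (c / ((a : ℂ) - b)))
    rw [pb_mo]
    have e1 : 1 + a - 1 = a := by omega
    have e2 : 1 + b - 1 = b := by omega
    rw [e1, e2]
    congr 1
    have : ((a : ℂ) - b) ≠ 0 := by
      rw [sub_ne_zero]
      exact_mod_cast hab
    push_cast
    field_simp

theorem coeff_pderiv_const (f : R) (i : Fin 2) :
    MvPolynomial.constantCoeff (MvPolynomial.pderiv i f) =
      MvPolynomial.coeff (Finsupp.single i 1) f := by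
  induction f using MvPolynomial.induction_on' with
  | monomial s c =>
    rw [MvPolynomial.pderiv_monomial, MvPolynomial.constantCoeff_eq, MvPolynomial.coeff_monomial,
      MvPolynomial.coeff_monomial]
    by_cases hs : s = Finsupp.single i 1
    · subst hs
      simp
    · rw [if_neg hs]
      split_ifs with h
      · by_cases h0 : s i = 0
        · rw [h0]; simp
        · exfalso
          apply hs
          have : Finsupp.single i 1 ≤ s := by
            rw [Finsupp.single_le_iff]; omega
          have h2 := tsub_add_cancel_of_le this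
          rw [h, zero_add] at h2
          exact h2.symm
      · rfl
  | add p q hp hq => rw [map_add, map_add, hp, hq, MvPolynomial.coeff_add]

/-- Every element of `O` without constant term is a combination of brackets. -/
theorem mem_brackets (f : OX) (hf : MvPolynomial.constantCoeff (f : R) = 0) :
    f ∈ PO.brackets := by
  have key : ∀ s ∈ (f : R).support, 2 ≤ s 0 + s 1 := by
    intro s hs
    rw [MvPolynomial.mem_support_iff] at hs
    by_contra hlt
    have h3 : s = 0 ∨ s = Finsupp.single 0 1 ∨ s = Finsupp.single 1 1 := by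
      have : (s 0 = 0 ∧ s 1 = 0) ∨ (s 0 = 1 ∧ s 1 = 0) ∨ (s 0 = 0 ∧ s 1 = 1) := by omega
      rcases this with ⟨h0, h1⟩ | ⟨h0, h1⟩ | ⟨h0, h1⟩
      · left; ext i; fin_cases i <;> simp [h0, h1]
      · right; left; ext i; fin_cases i <;> simp [h0, h1]
      · right; right; ext i; fin_cases i <;> simp [h0, h1]
    rcases h3 with rfl | rfl | rfl
    · exact hs (by rw [← MvPolynomial.constantCoeff_eq]; exact hf)
    · exact hs (by rw [← coeff_pderiv_const]; exact f.2 0)
    · exact hs (by rw [← coeff_pderiv_const]; exact f.2 1)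
  -- `f` is the sum of its monomials
  have hsum : f = ∑ s ∈ (f : R).support.attach,
      (⟨mo ((s : Fin 2 →₀ ℕ) 0) ((s : Fin 2 →₀ ℕ) 1) (MvPolynomial.coeff s (f : R)),
        mo_mem (key s s.2) _⟩ : OX) := by
    apply Subtype.ext
    rw [AddSubmonoidClass.coe_finsetSum]
    conv_lhs => rw [MvPolynomial.as_sum (f : R)]
    rw [← Finset.sum_attach]
    refine Finset.sum_congr rfl fun s _ => ?_
    change _ = mo _ _ _
    unfold mo
    rw [ex_eta]
  rw [hsum]
  exact Submodule.sum_mem _ fun s _ => mo_brackets (key s s.2) _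

theorem finrank_HP0 : Module.finrank ℂ PO.HP0 = 1 := by
  refine finrank_eq_one (Submodule.Quotient.mk (1 : OX)) ?_ ?_
  · rw [Ne, Submodule.Quotient.mk_eq_zero]
    exact one_notMem
  · intro w
    obtain ⟨f, rfl⟩ := Submodule.Quotient.mk_surjective _ w
    refine ⟨MvPolynomial.constantCoeff (f : R), ?_⟩
    rw [← Submodule.Quotient.mk_smul, eq_comm, Submodule.Quotient.eq]
    apply mem_brackets
    change MvPolynomial.constantCoeff ((f : R) -
      MvPolynomial.constantCoeff (f : R) • (1 : R)) = 0
    rw [map_sub, MvPolynomial.smul_eq_C_mul, map_mul, MvPolynomial.constantCoeff_C, map_one,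
      mul_one, sub_self]

theorem finite_HP0 : Module.Finite ℂ PO.HP0 :=
  Module.finite_of_finrank_eq_succ finrank_HP0

end Pool.Agent.U758.NN
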