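import Pool.Agent.U758.NN.Quant

/-!
The parameter space `ħ V⟦ħ⟧` of quantizations and its `ħ`-homogeneous hypersurfaces.
-/

set_option autoImplicit false

namespace Pool.Agent.U758.NN

/-- The second algebraic de Rham cohomology of the plane: `2`-forms modulo exact `2`-forms. -/
abbrev H2 : Type := MvPolynomial (Fin 2) ℂ ⧸ exact

instance : Subsingleton H2 := by
  rw [Submodule.Quotient.subsingleton_iff]
  exact exact_eq_top

/-- The parameter space `ħ V⟦ħ⟧`: all series `∑ c_j ħ^j` with `c_0 = 0`. -/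
def Param (V : Type) [AddCommGroup V] : Set (ℕ → V) := {c | c 0 = 0}

/-- `H ⊆ ħ V⟦ħ⟧` is an `ħ`-homogeneous hypersurface: `H` is the set of all `∑ c_j ħ^j` with
`F(c_1, …, c_n) = 0`, where `F` is a polynomial in linear functions of the coefficients
`c_1, …, c_n`, homogeneous when linear functions of `c_j` have degree `j`, and not identically
zero as a function of `c_1, …, c_n`. -/
def IsHypersurface (V : Type) [AddCommGroup V] [Module ℂ V] (H : Set (ℕ → V)) : Prop :=
  ∃ (n d : ℕ) (F : MvPolynomial (Fin n × Module.Dual ℂ V) ℂ),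
    MvPolynomial.IsWeightedHomogeneous (fun q : Fin n × Module.Dual ℂ V => (q.1 : ℕ) + 1) F d ∧
    (∃ c ∈ Param V,
      MvPolynomial.eval (fun q : Fin n × Module.Dual ℂ V => q.2 (c ((q.1 : ℕ) + 1))) F ≠ 0) ∧
    H = {c ∈ Param V |
      MvPolynomial.eval (fun q : Fin n × Module.Dual ℂ V => q.2 (c ((q.1 : ℕ) + 1))) F = 0}

theorem hypersurface_empty {H : Set (ℕ → H2)} (h : IsHypersurface H2 H) : H = ∅ := by
  obtain ⟨n, d, F, -, ⟨c, -, hc⟩, rfl⟩ := h
  rw [Set.eq_empty_iff_forall_notMem]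
  rintro c' ⟨-, hc'⟩
  have : c' = c := Subsingleton.elim _ _
  exact hc (this ▸ hc')

end Pool.Agent.U758.NN
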