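import Pool.Agent.U758.NN.Basic

/-!
Every deformation quantization `A` of `ℂ[x, y]` satisfies `HH_0(A[ħ⁻¹]) = 0`.
-/

set_option autoImplicit false

open scoped TensorProduct

namespace Pool.Agent.U758.NN

open Pool.Agent.TH212

section

variable {A : Type} [Ring A] [Algebra (PowerSeries ℂ) A]

theorem mem_pow (n : ℕ) (z : A) :
    z ∈ ((Ideal.span {(PowerSeries.X : PowerSeries ℂ)}) ^ n • (⊤ : Submodule (PowerSeries ℂ) A)) ↔ ∃ c : A, z = (PowerSeries.X : PowerSeries ℂ) ^ n • c := by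
  rw [Ideal.span_singleton_pow, Submodule.ideal_span_singleton_smul,
    Submodule.mem_smul_pointwise_iff_exists]
  constructor
  · rintro ⟨c, -, rfl⟩
    exact ⟨c, rfl⟩
  · rintro ⟨c, rfl⟩
    exact ⟨c, trivial, rfl⟩

theorem step {π : A →+* R} (hA : IsDeformationQuantization PR π) {Y : A}
    (hY : π Y = MvPolynomial.X 1) (a : A) :
    ∃ b a' : A, (PowerSeries.X : PowerSeries ℂ) • a = (Y * b - b * Y) + (PowerSeries.X : PowerSeries ℂ) • ((PowerSeries.X : PowerSeries ℂ) • a') := by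
  obtain ⟨g, hg⟩ := exists_pderiv (π a)
  obtain ⟨b, hb⟩ := hA.surjective g
  obtain ⟨c, hc, hc'⟩ := hA.bracket Y b
  have h1 : π (a - c) = 0 := by
    rw [map_sub, hc', hY, hb]
    change π a - pb (MvPolynomial.X 1) g = 0
    rw [pb_apply, MvPolynomial.pderiv_X_self,
      MvPolynomial.pderiv_X_of_ne (show (1 : Fin 2) ≠ 0 by decide), one_mul, zero_mul, sub_zero,
      hg, sub_self]
  obtain ⟨a', ha'⟩ := (hA.ker _).1 h1
  refine ⟨b, a', ?_⟩
  rw [hc, ← ha', smul_sub]
  abel

theorem exists_commutator {π : A →+* R} (hA : IsDeformationQuantization PR π) {Y : A}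
    (hY : π Y = MvPolynomial.X 1) (a : A) : ∃ b : A, (PowerSeries.X : PowerSeries ℂ) • a = Y * b - b * Y := by
  classical
  choose B A' hBA using step hA hY
  -- the sequence of remainders
  let r : ℕ → A := fun n => Nat.rec a (fun _ x => A' x) n
  have hr : ∀ n, r (n + 1) = A' (r n) := fun n => rfl
  let S : ℕ → A := fun n => ∑ j ∈ Finset.range n, (PowerSeries.X : PowerSeries ℂ) ^ j • B (r j)
  have hcomm : ∀ (p : PowerSeries ℂ) (b : A), Y * (p • b) - (p • b) * Y = p • (Y * b - b * Y) := by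
    intro p b
    rw [mul_smul_comm, smul_mul_assoc, smul_sub]
  have hS : ∀ n, (PowerSeries.X : PowerSeries ℂ) • a = (Y * S n - S n * Y) + (PowerSeries.X : PowerSeries ℂ) ^ n • ((PowerSeries.X : PowerSeries ℂ) • r n) := by
    intro n
    induction n with
    | zero =>
      change (PowerSeries.X : PowerSeries ℂ) • a = (Y * ∑ j ∈ Finset.range 0, _ - (∑ j ∈ Finset.range 0, _) * Y) + _
      rw [Finset.range_zero, Finset.sum_empty, mul_zero, zero_mul, sub_zero, zero_add, pow_zero,
        one_smul]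
      rfl
    | succ n ih =>
      have h1 : S (n + 1) = S n + (PowerSeries.X : PowerSeries ℂ) ^ n • B (r n) := Finset.sum_range_succ _ _
      rw [h1, mul_add, add_mul, hr]
      have h2 := hBA (r n)
      have h3 : Y * ((PowerSeries.X : PowerSeries ℂ) ^ n • B (r n)) - ((PowerSeries.X : PowerSeries ℂ) ^ n • B (r n)) * Y =
          (PowerSeries.X : PowerSeries ℂ) ^ n • (Y * B (r n) - B (r n) * Y) := hcomm _ _
      have h4 : (PowerSeries.X : PowerSeries ℂ) ^ (n + 1) • ((PowerSeries.X : PowerSeries ℂ) • A' (r n)) = (PowerSeries.X : PowerSeries ℂ) ^ n • ((PowerSeries.X : PowerSeries ℂ) • ((PowerSeries.X : PowerSeries ℂ) • A' (r n))) := by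
        rw [pow_succ, mul_smul]
      have h5 : (PowerSeries.X : PowerSeries ℂ) ^ n • ((PowerSeries.X : PowerSeries ℂ) • r n) = (PowerSeries.X : PowerSeries ℂ) ^ n • (Y * B (r n) - B (r n) * Y) +
          (PowerSeries.X : PowerSeries ℂ) ^ n • ((PowerSeries.X : PowerSeries ℂ) • ((PowerSeries.X : PowerSeries ℂ) • A' (r n))) := by
        rw [h2, smul_add]
      rw [ih, h5, h4, ← h3]
      abel
  have hc := hA.complete
  have hcauchy : ∀ {m n : ℕ}, m ≤ n → S m ≡ S n [SMOD ((Ideal.span {(PowerSeries.X : PowerSeries ℂ)}) ^ m •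
      (⊤ : Submodule (PowerSeries ℂ) A))] := by
    intro m n hmn
    rw [SModEq.sub_mem, ← neg_mem_iff, neg_sub]
    have h1 : S n - S m = ∑ j ∈ Finset.Ico m n, (PowerSeries.X : PowerSeries ℂ) ^ j • B (r j) := by
      rw [Finset.sum_Ico_eq_sub _ hmn]
    rw [h1]
    refine Submodule.sum_mem _ fun j hj => ?_
    rw [mem_pow]
    have hj' : m ≤ j := (Finset.mem_Ico.1 hj).1
    refine ⟨(PowerSeries.X : PowerSeries ℂ) ^ (j - m) • B (r j), ?_⟩
    rw [← mul_smul, ← pow_add, Nat.add_sub_cancel' hj']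
  obtain ⟨b, hb⟩ := hc.toIsPrecomplete.prec hcauchy
  refine ⟨b, ?_⟩
  rw [← sub_eq_zero]
  apply hc.toIsHausdorff.haus
  intro n
  rw [SModEq.sub_mem, sub_zero, mem_pow]
  have h1 := hb n
  rw [SModEq.sub_mem, mem_pow] at h1
  obtain ⟨c, hc'⟩ := h1
  refine ⟨(Y * c - c * Y) + (PowerSeries.X : PowerSeries ℂ) • r n, ?_⟩
  have h2 : S n = b + (PowerSeries.X : PowerSeries ℂ) ^ n • c := by rw [← hc']; abel
  rw [hS n, h2, smul_add, ← hcomm, mul_add, add_mul]
  abel

/-- `HH_0(A[ħ⁻¹]) = 0` for every deformation quantization `A` of `ℂ[x, y]`. -/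
theorem HH0_subsingleton {π : A →+* R} (hA : IsDeformationQuantization PR π) :
    Subsingleton (HH0 A) := by
  obtain ⟨Y, hY⟩ := hA.surjective (MvPolynomial.X 1)
  have htop : ∀ z : Loc A, z ∈ commutators A := by
    intro z
    induction z using TensorProduct.induction_on with
    | zero => exact zero_mem _
    | add x y hx hy => exact add_mem hx hy
    | tmul f a =>
      obtain ⟨b, hb⟩ := exists_commutator hA hY a
      apply AddSubgroup.subset_closure
      refine ⟨(1 : LaurentSeries ℂ) ⊗ₜ[PowerSeries ℂ] Y,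
        (f * HahnSeries.single (-1 : ℤ) (1 : ℂ)) ⊗ₜ[PowerSeries ℂ] b, ?_⟩
      rw [Algebra.TensorProduct.tmul_mul_tmul, Algebra.TensorProduct.tmul_mul_tmul, one_mul,
        mul_one, ← TensorProduct.tmul_sub, ← hb, TensorProduct.tmul_smul, TensorProduct.smul_tmul',
        Algebra.smul_def]
      congr 1
      have h1 : algebraMap (PowerSeries ℂ) (LaurentSeries ℂ) PowerSeries.X = HahnSeries.single (1 : ℤ) (1 : ℂ) := by
        rw [LaurentSeries.coe_algebraMap, HahnSeries.ofPowerSeries_X]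
      rw [h1, mul_left_comm, HahnSeries.single_mul_single]
      norm_num
  constructor
  intro x y
  obtain ⟨x, rfl⟩ := QuotientAddGroup.mk_surjective x
  obtain ⟨y, rfl⟩ := QuotientAddGroup.mk_surjective y
  rw [QuotientAddGroup.eq]
  exact htop _

end

end Pool.Agent.U758.NN
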